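import Pool.Agent.MWKP.Stmts

/-!
# MWKP, row ST2: one step, what is kept
-/

set_option autoImplicit false

namespace Pool.Agent.MWKP.H37

open Pool.Agent.Helper14_MV Pool.Agent.Helper2_MV Pool.Agent.MWK

theorem core (hIPT : IptStmt) (m : ℕ) (u v : List ℕ) (x y N : ℕ) (F : ℕ → ℕ → ℕ → Prop)
    (hA : Ag F u v) (c1 : ∀ t z i, Dp m v t → F t z i)
    (c2 : ∀ t z i, F t z i → Dp (m + 1) v t) (c3 : ∀ t, Dp (m + 1) v t → F t y 0)
    (hM : Mm m u v x y) (hcu : CX m u y x) (hcv : CX m v y x)
    (hxy : x ∈ pre u y ∧ x ∈ pre v y ∨ ¬ Dp (m + 1) v x)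
    (hNu : 2 ≤ (pre u y).count x + N) (hNv : 2 ≤ (pre v y).count x + N) :
    Ag F (ipt u y x N) (ipt v y x N) ∧
      (∀ k ≤ m + 1, ∀ t, Dp k (ipt v y x N) t ↔ Dp k v t) ∧
      (∀ x' y', Mm m (ipt u y x N) (ipt v y x N) x' y' → Mm m u v x' y') ∧
      ¬ Mm m (ipt u y x N) (ipt v y x N) x y := by
  have hyv : y ∈ v := hM.1.mem
  have hyu : y ∈ u := (hA.mem y).2 hyv
  have hny : ¬ Dp m v y := by
    intro hd
    exact hM.2 (fun i hi => hA.2 y x i hi (c1 y x i hd))
  obtain ⟨iu1, iu2⟩ := hIPT u y x N hyu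
  obtain ⟨iv1, iv2⟩ := hIPT v y x N hyv
  -- the formula of IPT can be used for all walls
  have good : ∀ t, Dp (m + 1) v t → (t ≠ x ∨ x ∈ pre u y) ∧ (t ≠ x ∨ x ∈ pre v y) := by
    intro t ht
    rcases hxy with h | h
    · exact ⟨Or.inr h.1, Or.inr h.2⟩
    · have : t ≠ x := by
        rintro rfl
        exact h ht
      exact ⟨Or.inl this, Or.inl this⟩
  have ord : ∀ t, Dp (m + 1) v t → (y ∈ pre u t ↔ y ∈ pre v t) := fun t ht =>
    hA.mem_pre (c3 t ht)
  -- the numbers in front of walls behind `y`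
  have big : ∀ t, Dp (m + 1) v t → (t = y ∨ y ∈ pre v t) →
      2 ≤ (pre (ipt u y x N) t).count x ∧ 2 ≤ (pre (ipt v y x N) t).count x := by
    intro t ht hb
    have hbu : t = y ∨ y ∈ pre u t := by
      rcases hb with h | h
      · exact Or.inl h
      · exact Or.inr ((ord t ht).2 h)
    have e1 := iu2 t (good t ht).1 x
    have e2 := iv2 t (good t ht).2 x
    rw [if_pos ⟨rfl, hbu⟩] at e1
    rw [if_pos ⟨rfl, hb⟩] at e2
    have m1 : (pre u y).count x ≤ (pre u t).count x := by
      rcases hbu with h | h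
      · rw [h]
      · exact count_pre_mono h x
    have m2 : (pre v y).count x ≤ (pre v t).count x := by
      rcases hb with h | h
      · rw [h]
      · exact count_pre_mono h x
    omega
  -- the clauses are kept
  have keep : ∀ t z i, i ≤ 1 → Dp (m + 1) v t →
      (i + 1 ≤ (pre u t).count z ↔ i + 1 ≤ (pre v t).count z) →
      (i + 1 ≤ (pre (ipt u y x N) t).count z ↔ i + 1 ≤ (pre (ipt v y x N) t).count z) := by
    intro t z i hi ht hc
    by_cases hz : z = x ∧ (t = y ∨ y ∈ pre v t)
    · obtain ⟨hz, hb⟩ := hz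
      subst hz
      have := big t ht hb
      constructor
      · intro _
        omega
      · intro _
        omega
    · have hzu : ¬ (z = x ∧ (t = y ∨ y ∈ pre u t)) := by
        rintro ⟨h1, h2⟩
        exact hz ⟨h1, h2.imp id (ord t ht).1⟩
      have e1 := iu2 t (good t ht).1 z
      have e2 := iv2 t (good t ht).2 z
      rw [if_neg hzu, Nat.add_zero] at e1
      rw [if_neg hz, Nat.add_zero] at e2
      rw [e1, e2]
      exact hc
  have tot : ∀ z i, i ≤ 1 → (i + 1 ≤ u.count z ↔ i + 1 ≤ v.count z) →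
      (i + 1 ≤ (ipt u y x N).count z ↔ i + 1 ≤ (ipt v y x N).count z) := by
    intro z i hi hc
    rw [iu1 z, iv1 z]
    by_cases hz : z = x
    · subst hz
      have h1 := hcu.1
      have h2 := hcv.1
      constructor
      · intro _
        omega
      · intro _
        omega
    · rw [if_neg hz, Nat.add_zero, Nat.add_zero]
      exact hc
  -- the depths
  have hv : Ag (FF m v) (ipt v y x N) v := by
    refine ⟨fun z i hi => ?_, fun t z i hi ht => ?_⟩
    · rw [iv1 z]
      by_cases hz : z = x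
      · subst hz
        have h2 := hcv.1
        constructor
        · intro _
          omega
        · intro _
          omega
      · rw [if_neg hz]
        exact Iff.rfl
    · have ht' : Dp m v t := ht
      have hty : t ≠ y := by
        rintro rfl
        exact hny ht'
      rw [iv2 t (good t ht'.mono).2 z]
      by_cases hz : z = x ∧ (t = y ∨ y ∈ pre v t)
      · rw [if_pos hz]
        obtain ⟨hz, hb⟩ := hz
        subst hz
        have hb' : y ∈ pre v t := by
          rcases hb with h | h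
          · exact absurd h hty
          · exact h
        have := hcv.2 t ht' hb'
        constructor
        · intro _
          omega
        · intro _
          omega
      · rw [if_neg hz]
        exact Iff.rfl
  have hd := T.dag m (ipt v y x N) v hv
  refine ⟨⟨fun z i hi => tot z i hi (hA.1 z i hi), fun t z i hi hf =>
    keep t z i hi (c2 t z i hf) (hA.2 t z i hi hf)⟩, hd, ?_, ?_⟩
  · rintro x' y' ⟨h1, h2⟩
    have h1' := (hd (m + 1) le_rfl y').1 h1
    refine ⟨h1', fun h3 => h2 (fun i hi => keep y' x' i hi h1' (h3 i hi))⟩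
  · rintro ⟨_, h2⟩
    refine h2 (fun i hi => ?_)
    have := big y hM.1 (Or.inl rfl)
    constructor
    · intro _
      omega
    · intro _
      omega

theorem st2 (hIPT : IptStmt) : St2Stmt := by
  intro m j hj1 hj2 u v x y N hA hM hcu hcv hxy hNu hNv
  match j, hj1, hj2, hA with
  | 1, _, _, hA =>
    have hA' : Ag (FB m v) u v := hA
    obtain ⟨r1, r2, r3, r4⟩ := core hIPT m u v x y N (FB m v) hA' (fun t z i h => Or.inl h)
      (fun t z i h => by
        rcases h with h | h
        · exact h.mono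
        · exact h.1) (fun t h => Or.inr ⟨h, hM.1, rfl⟩) hM hcu hcv hxy hNu hNv
    refine ⟨?_, r2, r3, r4⟩
    show Ag (FB m (ipt v y x N)) (ipt u y x N) (ipt v y x N)
    refine r1.weaken (fun t z i h => ?_)
    rcases h with h | ⟨h1, h2, h3⟩
    · exact Or.inl ((r2 m (by omega) t).1 h)
    · exact Or.inr ⟨(r2 (m + 1) le_rfl t).1 h1, (r2 (m + 1) le_rfl z).1 h2, h3⟩
  | e + 2, _, hj2, hA =>
    have hA' : Ag (FD m (e + 1) v) u v := hA
    obtain ⟨r1, r2, r3, r4⟩ := core hIPT m u v x y N (FD m (e + 1) v) hA'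
      (fun t z i h => Or.inl h)
      (fun t z i h => by
        rcases h with h | h
        · exact h.mono
        · exact h.1) (fun t h => Or.inr ⟨h, Or.inl rfl⟩) hM hcu hcv hxy hNu hNv
    refine ⟨?_, r2, r3, r4⟩
    show Ag (FD m (e + 1) (ipt v y x N)) (ipt u y x N) (ipt v y x N)
    refine r1.weaken (fun t z i h => ?_)
    rcases h with h | ⟨h1, h2 | h2⟩
    · exact Or.inl ((r2 m (by omega) t).1 h)
    · exact Or.inr ⟨(r2 (m + 1) le_rfl t).1 h1, Or.inl h2⟩
    · exact Or.inr ⟨(r2 (m + 1) le_rfl t).1 h1, Or.inr ((r2 (e + 1) (by omega) z).1 h2)⟩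

end Pool.Agent.MWKP.H37
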